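import Pool.Agent.H76.NP.Targets

/-!
Coefficients of the gamma polynomial (row GAM of nvp_modules).
-/

set_option autoImplicit false

namespace Pool.Agent.H50.NP

open Pool.Agent.H76.NP Finset Polynomial

theorem gam_aux (g : ℕ → ℕ)
    (h : (1 + (X : ℤ[X])) ^ 6 + 12 * X * (1 + X) ^ 4 + 33 * X ^ 2 * (1 + X) ^ 2 + X ^ 3 =
      ∑ j ∈ Finset.range 4, (g j : ℤ[X]) * ((X : ℤ[X]) ^ j * (1 + (X : ℤ[X])) ^ (6 - 2 * j))) :
    g 1 = 12 ∧ g 2 = 33 ∧ g 3 = 1 := by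
  have key : ∀ a : ℤ, (1 + a) ^ 6 + 12 * a * (1 + a) ^ 4 + 33 * a ^ 2 * (1 + a) ^ 2 + a ^ 3 =
      (g 0 : ℤ) * (1 + a) ^ 6 + (g 1 : ℤ) * (a * (1 + a) ^ 4) + (g 2 : ℤ) * (a ^ 2 * (1 + a) ^ 2) +
        (g 3 : ℤ) * a ^ 3 := by
    intro a
    have := congrArg (Polynomial.eval a) h
    simp only [Finset.sum_range_succ, Finset.sum_range_zero, zero_add, Polynomial.eval_add, Polynomial.eval_mul,
      Polynomial.eval_pow, Polynomial.eval_X, Polynomial.eval_one, Polynomial.eval_ofNat,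
      Polynomial.eval_natCast, pow_zero, one_mul, mul_zero, Nat.sub_zero, pow_one, mul_one] at this
    norm_num at this
    linarith
  have k0 := key 0
  have k1 := key 1
  have k2 := key (-1)
  have k3 := key 2
  norm_num at k0 k1 k2 k3
  refine ⟨?_, ?_, ?_⟩ <;> omega

theorem pf_GAM : T_GAM := by
  classical
  intro m Γ hc h
  have hmem : ∀ σ ∈ Γ, σ.card ∈ Finset.range 4 := by
    intro σ hσ
    have := hc σ hσ
    rw [Finset.mem_range]
    omega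
  obtain ⟨g, hg⟩ : ∃ g : ℕ → ℕ, ∀ j, g j = (Γ.filter (fun σ => σ.card = j)).card := ⟨_, fun _ => rfl⟩
  have hsum : ∑ σ ∈ Γ, (X : ℤ[X]) ^ σ.card * (1 + (X : ℤ[X])) ^ (6 - 2 * σ.card) =
      ∑ j ∈ Finset.range 4, (g j : ℤ[X]) * ((X : ℤ[X]) ^ j * (1 + (X : ℤ[X])) ^ (6 - 2 * j)) := by
    rw [← Finset.sum_fiberwise_of_maps_to hmem]
    refine Finset.sum_congr rfl fun j _ => ?_
    rw [Finset.sum_congr rfl (g := fun _ => (X : ℤ[X]) ^ j * (1 + (X : ℤ[X])) ^ (6 - 2 * j))]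
    · rw [Finset.sum_const, nsmul_eq_mul, hg]
    · intro σ hσ
      rw [(Finset.mem_filter.mp hσ).2]
  have h' := gam_aux g (h.trans hsum)
  rw [hg, hg, hg] at h'
  exact h'

end Pool.Agent.H50.NP
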