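import Pool.Agent.H76.NP.Targets

/-!
No flag complex has 12 vertices, 33 edges and exactly one triangle (row MAN of nvp_modules).
-/

set_option autoImplicit false

namespace Pool.Agent.H50.NP

open Pool.Agent.H76.NP Finset

theorem mantel9 (m : ℕ) (Γ : Finset (Finset (Fin m))) (W : Finset (Fin m)) (hW : W.card = 9)
    (htf : ∀ x ∈ W, ∀ y ∈ W, ∀ z ∈ W, x ≠ y → x ≠ z → y ≠ z → ({x, y} : Finset (Fin m)) ∈ Γ →
      ({x, z} : Finset (Fin m)) ∈ Γ → ({y, z} : Finset (Fin m)) ∈ Γ → False) :
    (Γ.filter (fun e => e.card = 2 ∧ e ⊆ W)).card ≤ 20 := by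
  classical
  let H : SimpleGraph W :=
    { Adj := fun x y => x ≠ y ∧ ({x.1, y.1} : Finset (Fin m)) ∈ Γ
      symm := ⟨fun x y h => ⟨h.1.symm, by rw [Finset.pair_comm]; exact h.2⟩⟩
      loopless := ⟨fun x h => h.1 rfl⟩ }
  have hcf : H.CliqueFree (2 + 1) := by
    intro s hs
    rw [SimpleGraph.is3Clique_iff] at hs
    obtain ⟨a, b, c, hab, hac, hbc, -⟩ := hs
    refine htf a.1 a.2 b.1 b.2 c.1 c.2 ?_ ?_ ?_ hab.2 hac.2 hbc.2
    · exact fun h => hab.1 (Subtype.ext h)
    · exact fun h => hac.1 (Subtype.ext h)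
    · exact fun h => hbc.1 (Subtype.ext h)
  have hT := hcf.card_edgeFinset_le
  have hc : Fintype.card W = 9 := by simpa using hW
  simp only [hc] at hT
  have h20 : H.edgeFinset.card ≤ 20 := by
    refine hT.trans ?_
    decide
  refine le_trans ?_ h20
  have hsub : Γ.filter (fun e => e.card = 2 ∧ e ⊆ W) ⊆
      H.edgeFinset.image (fun e => e.toFinset.image Subtype.val) := by
    intro e he
    rw [Finset.mem_filter] at he
    obtain ⟨heΓ, hec, heW⟩ := he
    obtain ⟨x, y, hxy, rfl⟩ := Finset.card_eq_two.mp hec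
    have hx : x ∈ W := heW (by simp)
    have hy : y ∈ W := heW (by simp)
    rw [Finset.mem_image]
    refine ⟨s(⟨x, hx⟩, ⟨y, hy⟩), ?_, ?_⟩
    · rw [SimpleGraph.mem_edgeFinset, SimpleGraph.mem_edgeSet]
      exact ⟨fun h => hxy (congrArg Subtype.val h), heΓ⟩
    · rw [Sym2.toFinset_mk_eq]
      simp
  exact (Finset.card_le_card hsub).trans Finset.card_image_le

theorem pf_MAN : T_MAN := by
  classical
  intro m Γ hd hf h1 h2 h3
  obtain ⟨T, hT⟩ := Finset.card_eq_one.mp h3
  have hTm : T ∈ Γ ∧ T.card = 3 := by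
    have : T ∈ Γ.filter (fun σ => σ.card = 3) := by rw [hT]; simp
    simpa using this
  have huniq : ∀ s ∈ Γ, s.card = 3 → s = T := by
    intro s hs hc
    have : s ∈ Γ.filter (fun σ => σ.card = 3) := by simp [hs, hc]
    rw [hT] at this
    simpa using this
  have hpair : ∀ x y : Fin m, ({x, y} : Finset (Fin m)) ∈ Γ → ({x} : Finset (Fin m)) ∈ Γ := by
    intro x y h
    exact hd _ h _ (by simp)
  -- a triangle of the graph is a face
  have htri : ∀ x y z : Fin m, x ≠ y → x ≠ z → y ≠ z → ({x, y} : Finset (Fin m)) ∈ Γ →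
      ({x, z} : Finset (Fin m)) ∈ Γ → ({y, z} : Finset (Fin m)) ∈ Γ → ({x, y, z} : Finset (Fin m)) = T := by
    intro x y z hxy hxz hyz e1 e2 e3
    apply huniq
    · apply hf
      have hx : ({x, x} : Finset (Fin m)) ∈ Γ := by simpa using hpair x y e1
      have hy : ({y, y} : Finset (Fin m)) ∈ Γ := by simpa using hpair y z e3
      have hz : ({z, z} : Finset (Fin m)) ∈ Γ := by
        simpa using hpair z x (by rw [Finset.pair_comm]; exact e2)
      intro u hu v hv
      simp only [Finset.mem_insert, Finset.mem_singleton] at hu hv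
      rcases hu with rfl | rfl | rfl <;> rcases hv with rfl | rfl | rfl <;>
        first
          | assumption
          | (rw [Finset.pair_comm]; assumption)
    · rw [Finset.card_eq_three]
      exact ⟨x, y, z, hxy, hxz, hyz, rfl⟩
  -- vertices
  set VV : Finset (Fin m) := Finset.univ.filter (fun x => ({x} : Finset (Fin m)) ∈ Γ) with hVV
  have hVc : VV.card = 12 := by
    rw [← h1]
    have himg : Γ.filter (fun σ => σ.card = 1) = VV.image (fun x => ({x} : Finset (Fin m))) := by
      ext s
      simp only [Finset.mem_filter, Finset.mem_image, hVV, Finset.mem_univ, true_and]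
      constructor
      · rintro ⟨hs, hc⟩
        obtain ⟨x, rfl⟩ := Finset.card_eq_one.mp hc
        exact ⟨x, hs, rfl⟩
      · rintro ⟨x, hx, rfl⟩
        exact ⟨hx, by simp⟩
    rw [himg, Finset.card_image_of_injective]
    exact Finset.singleton_injective
  have hTV : T ⊆ VV := by
    intro x hx
    rw [hVV, Finset.mem_filter]
    exact ⟨Finset.mem_univ _, hd T hTm.1 _ (by simpa using hx)⟩
  have hWc : (VV \ T).card = 9 := by
    rw [Finset.card_sdiff_of_subset hTV, hVc, hTm.2]
  -- the three parts
  have hA : (Γ.filter (fun e => e.card = 2 ∧ e ⊆ T)).card ≤ 3 := by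
    have : Γ.filter (fun e => e.card = 2 ∧ e ⊆ T) ⊆ T.powersetCard 2 := by
      intro e he
      rw [Finset.mem_filter] at he
      rw [Finset.mem_powersetCard]
      exact ⟨he.2.2, he.2.1⟩
    refine (Finset.card_le_card this).trans ?_
    rw [Finset.card_powersetCard, hTm.2]
    decide
  have hB : (Γ.filter (fun e => e.card = 2 ∧ e ⊆ VV \ T)).card ≤ 20 := by
    apply mantel9 m Γ (VV \ T) hWc
    intro x hx y hy z hz hxy hxz hyz e1 e2 e3
    have := htri x y z hxy hxz hyz e1 e2 e3
    have hxT : x ∈ T := by rw [← this]; simp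
    exact (Finset.mem_sdiff.mp hx).2 hxT
  have hC : (Γ.filter (fun e => e.card = 2 ∧ ¬ e ⊆ T ∧ ¬ e ⊆ VV \ T)).card ≤ 9 := by
    rw [← hWc]
    -- every such edge is {x, a}, x ∈ W, a ∈ T
    have hform : ∀ e ∈ Γ.filter (fun e => e.card = 2 ∧ ¬ e ⊆ T ∧ ¬ e ⊆ VV \ T),
        ∃ x ∈ VV \ T, ∃ a ∈ T, e = {x, a} ∧ e \ T = {x} ∧ ({x, a} : Finset (Fin m)) ∈ Γ := by
      intro e he
      rw [Finset.mem_filter] at he
      obtain ⟨heΓ, hec, h4, h5⟩ := he
      obtain ⟨u, v, huv, rfl⟩ := Finset.card_eq_two.mp hec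
      have hu : u ∈ VV := by
        rw [hVV, Finset.mem_filter]; exact ⟨Finset.mem_univ _, hpair u v heΓ⟩
      have hv : v ∈ VV := by
        rw [hVV, Finset.mem_filter]
        exact ⟨Finset.mem_univ _, hpair v u (by rw [Finset.pair_comm]; exact heΓ)⟩
      by_cases huT : u ∈ T
      · by_cases hvT : v ∈ T
        · exact absurd (by intro w hw; simp only [Finset.mem_insert, Finset.mem_singleton] at hw
                           rcases hw with rfl | rfl <;> assumption) h4
        · refine ⟨v, Finset.mem_sdiff.mpr ⟨hv, hvT⟩, u, huT, Finset.pair_comm u v, ?_, ?_⟩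
          · ext w
            simp only [Finset.mem_sdiff, Finset.mem_insert, Finset.mem_singleton]
            constructor
            · rintro ⟨rfl | rfl, h⟩
              · exact absurd huT h
              · rfl
            · rintro rfl
              exact ⟨Or.inr rfl, hvT⟩
          · rw [Finset.pair_comm]; exact heΓ
      · by_cases hvT : v ∈ T
        · refine ⟨u, Finset.mem_sdiff.mpr ⟨hu, huT⟩, v, hvT, rfl, ?_, heΓ⟩
          ext w
          simp only [Finset.mem_sdiff, Finset.mem_insert, Finset.mem_singleton]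
          constructor
          · rintro ⟨rfl | rfl, h⟩
            · rfl
            · exact absurd hvT h
          · rintro rfl
            exact ⟨Or.inl rfl, huT⟩
        · exact absurd (by intro w hw; simp only [Finset.mem_insert, Finset.mem_singleton] at hw
                           rcases hw with rfl | rfl
                           · exact Finset.mem_sdiff.mpr ⟨hu, huT⟩
                           · exact Finset.mem_sdiff.mpr ⟨hv, hvT⟩) h5
    have hinj : Set.InjOn (fun e : Finset (Fin m) => e \ T)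
        (Γ.filter (fun e => e.card = 2 ∧ ¬ e ⊆ T ∧ ¬ e ⊆ VV \ T) : Finset (Finset (Fin m))) := by
      intro e he e' he' hee
      obtain ⟨x, hx, a, ha, rfl, h6, h7⟩ := hform e he
      obtain ⟨x', hx', a', ha', rfl, h6', h7'⟩ := hform e' he'
      have hxx : x = x' := by
        have h8 : ({x} : Finset (Fin m)) = {x'} := by
          rw [← h6, ← h6']; exact hee
        simpa using h8
      subst hxx
      by_cases haa : a = a'
      · rw [haa]
      · exfalso
        have hxT : x ∉ T := (Finset.mem_sdiff.mp hx).2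
        have hxa : x ≠ a := fun h => hxT (h ▸ ha)
        have hxa' : x ≠ a' := fun h => hxT (h ▸ ha')
        have haaΓ : ({a, a'} : Finset (Fin m)) ∈ Γ := by
          apply hd T hTm.1
          intro w hw
          simp only [Finset.mem_insert, Finset.mem_singleton] at hw
          rcases hw with rfl | rfl <;> assumption
        have := htri x a a' hxa hxa' haa h7 h7' haaΓ
        apply hxT
        rw [← this]; simp
    have hmaps : Set.MapsTo (fun e : Finset (Fin m) => e \ T)
        (Γ.filter (fun e => e.card = 2 ∧ ¬ e ⊆ T ∧ ¬ e ⊆ VV \ T) : Finset (Finset (Fin m)))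
        (((VV \ T).image (fun x => ({x} : Finset (Fin m)))) : Finset (Finset (Fin m))) := by
      intro e he
      obtain ⟨x, hx, a, ha, _, h6, _⟩ := hform e he
      simp only [Finset.coe_image, Set.mem_image]
      exact ⟨x, hx, h6.symm⟩
    have := Finset.card_le_card_of_injOn _ hmaps hinj
    refine this.trans Finset.card_image_le
  have hsplit : (Γ.filter (fun σ => σ.card = 2)).card ≤
      (Γ.filter (fun e => e.card = 2 ∧ e ⊆ T)).card + (Γ.filter (fun e => e.card = 2 ∧ e ⊆ VV \ T)).card +
        (Γ.filter (fun e => e.card = 2 ∧ ¬ e ⊆ T ∧ ¬ e ⊆ VV \ T)).card := by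
    have hsub : Γ.filter (fun σ => σ.card = 2) ⊆
        (Γ.filter (fun e => e.card = 2 ∧ e ⊆ T) ∪ Γ.filter (fun e => e.card = 2 ∧ e ⊆ VV \ T)) ∪
          Γ.filter (fun e => e.card = 2 ∧ ¬ e ⊆ T ∧ ¬ e ⊆ VV \ T) := by
      intro e he
      simp only [Finset.mem_union, Finset.mem_filter] at he ⊢
      tauto
    refine (Finset.card_le_card hsub).trans ?_
    refine (Finset.card_union_le _ _).trans ?_
    exact Nat.add_le_add_right (Finset.card_union_le _ _) _
  omega

end Pool.Agent.H50.NP
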